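import Pool.Agent.Lib.MP_d3d931_al.Assemble
import Pool.Agent.Lib.MP_d3d931_al.PartA2

namespace Pool.Agent.Results.MP_d3d931_al.Question1

open Pool.Agent.Lib.MP_d3d931_al

universe u

/-- Every supernilpotent semigroup is both left nilpotent and right nilpotent. -/
theorem result : ∀ (S : Type u) [Semigroup S], Supernilpotent S →
    LeftNilpotent S ∧ RightNilpotent S := by
  intro S _ h
  refine assemble (fun d => ⟨Nd d, lt_of_lt_of_le (Nat.succ_pos d) (Nd_ge d), ?_⟩) h
  intro M _ hM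
  obtain ⟨-, -, hOR, hOL, G, hG, ι, hι, -, -, hGd⟩ := partA M d (Nd d) le_rfl hM
  exact ⟨hOL, hOR, G, hG, ι, hι, hGd⟩

end Pool.Agent.Results.MP_d3d931_al.Question1
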