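import Pool.Agent.Lib.MP_d3d931_al.Twin

namespace Pool.Agent.Results.MP_d3d931_al.Question2

open Pool.Agent.Lib.MP_d3d931_al

/-- There is a semigroup that is both left and right nilpotent but not supernilpotent. -/
theorem result : ∃ (S : Type) (_ : Semigroup S),
    LeftNilpotent S ∧ RightNilpotent S ∧ ¬ Supernilpotent S :=
  ⟨Twin.T, inferInstance, ⟨3, Twin.left3⟩, ⟨3, Twin.right3⟩, Twin.not_supernilpotent⟩

end Pool.Agent.Results.MP_d3d931_al.Question2
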